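import Pool.Agent.ZES.StmtsG

set_option autoImplicit false

/-!
# ZES, row ZGR: the common zeros are a closed subgroup
-/

namespace Pool.Agent.ZES.H16

open scoped BigOperators
open Pool.Agent.ZES

theorem mem_van {V : Type} (G : Set V) (f : V → ℂ) : f ∈ Van G ↔ ∀ x ∈ G, f x = 0 := Iff.rfl

theorem zgr (PWD : PwdStmt) (ADM : AdmStmt) (VMZ : VmzStmt) : ZgrStmt := by
  intro V _ _ E hE Γ m hm hst
  have hz : ∀ z ∈ Zr E (Γ : Set V) m, ∀ f ∈ E ^ m ⊓ Van (Γ : Set V), f z = 0 :=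
    fun z hz f hf => hz f hf
  have hgz : ∀ z ∈ Γ, z ∈ Zr E (Γ : Set V) m := by
    intro z hzΓ f hf
    exact (mem_van _ f).1 hf.2 z hzΓ
  -- the addition law
  have key : ∀ y, (∀ x ∈ Γ, ∀ f ∈ E ^ m ⊓ Van (Γ : Set V), f (x + y) = 0) →
      ∀ z ∈ Zr E (Γ : Set V) m, z + y ∈ Zr E (Γ : Set V) m := by
    intro y hy z hzZ f hf
    obtain ⟨q, hq, hqz⟩ := hE.nbp (z - y)
    have h1 := (ADM V E hE m f hf.1).1 q hq y
    have h2 : (fun x => f (x + y) * q (x - y) ^ m) ∈ Van (Γ : Set V) := by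
      intro x hx
      show f (x + y) * q (x - y) ^ m = 0
      rw [hy x hx f hf, zero_mul]
    have h3 := (VMZ V E hE (Γ : Set V) m hst _ ⟨h1, h2⟩ z hzZ).1
    have h4 : f (z + y) * q (z - y) ^ m = 0 := h3
    rcases mul_eq_zero.1 h4 with h5 | h5
    · exact h5
    · exact absurd (pow_eq_zero_iff (by omega) |>.1 h5) hqz
  have hadd : ∀ y ∈ Zr E (Γ : Set V) m, ∀ z ∈ Zr E (Γ : Set V) m,
      z + y ∈ Zr E (Γ : Set V) m := by
    intro y hyZ
    refine key y ?_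
    intro x hx f hf
    have h1 : y + x ∈ Zr E (Γ : Set V) m := by
      refine key x ?_ y hyZ
      intro x' hx' f' hf'
      exact (mem_van _ f').1 hf'.2 (x' + x) (Γ.add_mem hx' hx)
    rw [add_comm]
    exact h1 f hf
  have hneg : ∀ z ∈ Zr E (Γ : Set V) m, -z ∈ Zr E (Γ : Set V) m := by
    intro z hzZ f hf
    have h1 := (ADM V E hE m f hf.1).2
    have h2 : (fun x => f (-x)) ∈ Van (Γ : Set V) := by
      intro x hx
      exact (mem_van _ f).1 hf.2 (-x) (Γ.neg_mem hx)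
    exact hzZ _ ⟨h1, h2⟩
  have hzero : (0 : V) ∈ Zr E (Γ : Set V) m := hgz 0 Γ.zero_mem
  let S : AddSubmonoid V :=
    { carrier := Zr E (Γ : Set V) m
      zero_mem' := hzero
      add_mem' := fun {a b} ha hb => hadd b hb a ha }
  let Z : AddSubgroup V := { S with neg_mem' := fun {a} ha => hneg a ha }
  have hZ : (Z : Set V) = Zr E (Γ : Set V) m := rfl
  refine ⟨Z, hZ, ?_, hgz, ?_⟩
  · rw [hZ]
    have h1 : Zr E (Γ : Set V) m = ⋂ f ∈ E ^ m ⊓ Van (Γ : Set V), {x | f x = 0} := by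
      ext x
      simp only [Set.mem_iInter]
      exact Iff.rfl
    rw [h1]
    refine isClosed_biInter fun f hf => ?_
    exact isClosed_eq ((PWD V E hE m).1 f hf.1).continuous continuous_const
  · intro F hF hF0 x hFx
    obtain ⟨q, hq, hqx⟩ := hE.nbp x
    obtain ⟨j, rfl⟩ : ∃ j, m = j + 1 := ⟨m - 1, by omega⟩
    have h1 : (fun x => q x ^ j) ∈ E ^ j := (PWD V E hE j).2.2 q hq
    have h2 : F * (fun x => q x ^ j) ∈ E ^ (j + 1) := by
      rw [pow_succ']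
      exact Submodule.mul_mem_mul hF h1
    have h3 : F * (fun x => q x ^ j) ∈ Van (Γ : Set V) := by
      intro y hy
      show F y * q y ^ j = 0
      rw [hF0 y hy, zero_mul]
    have h4 : (F * (fun x => q x ^ j)) x ≠ 0 := by
      show F x * q x ^ j ≠ 0
      exact mul_ne_zero hFx (pow_ne_zero _ hqx)
    refine ⟨fun hxZ => h4 (hxZ _ ⟨h2, h3⟩), F * (fun x => q x ^ j), ⟨h2, h3⟩, h4⟩

end Pool.Agent.ZES.H16
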